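import Pool.Agent.Q253.NF.Stm2

/-!
# Job NF-RED: finitely many primes do not matter
-/

set_option autoImplicit false

namespace Pool.Agent.Q26.NF

open Filter Topology Set Complex NumberField IsDedekindDomain
open Pool.Agent.H921R2.TatePole (nm two_le_nm)
open Pool.Agent.Q253.NF (ks)

section
variable {F : Type} [Field F] [NumberField F]

/-- the weight of the prime power `v^(n+1)` -/
noncomputable def tt (u : ℝ) (x : HeightOneSpectrum (𝓞 F) × ℕ) : ℝ :=
  Real.log (Ideal.absNorm x.1.asIdeal) *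
      Real.exp (-(((x.2 : ℝ) + 1) * Real.log (Ideal.absNorm x.1.asIdeal) / 2)) *
      Real.exp (-|u - ((x.2 : ℝ) + 1) * Real.log (Ideal.absNorm x.1.asIdeal)|)

theorem two_le (v : HeightOneSpectrum (𝓞 F)) : (2 : ℝ) ≤ (Ideal.absNorm v.asIdeal : ℝ) := by
  have h : 2 ≤ nm v := two_le_nm v
  have h2 : nm v = Ideal.absNorm v.asIdeal := rfl
  rw [h2] at h
  exact_mod_cast h

theorem log_pos' (v : HeightOneSpectrum (𝓞 F)) : 0 < Real.log (Ideal.absNorm v.asIdeal) :=
  Real.log_pos (by linarith [two_le v])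

theorem tt_nonneg (u : ℝ) (x : HeightOneSpectrum (𝓞 F) × ℕ) : 0 ≤ tt u x :=
  mul_nonneg (mul_nonneg (log_pos' x.1).le (Real.exp_pos _).le) (Real.exp_pos _).le

theorem tt_summable (u : ℝ) : Summable (tt (F := F) u) := by
  have h1 := (Pool.Agent.Q92.AR.summable_geo (F := F) (δ := 5 / 4) (by norm_num)).mul_left
    (4 * Real.exp u)
  refine Summable.of_nonneg_of_le (tt_nonneg u) (fun x => ?_) h1
  have hq := two_le x.1
  have hL := log_pos' x.1
  have h2 : (nm x.1 : ℝ) = (Ideal.absNorm x.1.asIdeal : ℝ) := rfl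
  rw [h2]
  set q : ℝ := (Ideal.absNorm x.1.asIdeal : ℝ) with hqd
  set L : ℝ := Real.log q with hLd
  unfold tt
  rw [← hqd, ← hLd]
  have hq0 : 0 < q := by linarith
  have h3 : (q ^ (-(5 / 4) : ℝ)) ^ (x.2 + 1) = Real.exp (-(5 / 4) * (((x.2 : ℝ) + 1) * L)) := by
    rw [Real.rpow_def_of_pos hq0, ← Real.exp_nat_mul]
    congr 1
    push_cast
    ring
  rw [h3]
  have hn : (0 : ℝ) ≤ x.2 := Nat.cast_nonneg _
  have h4 : L ≤ 4 * Real.exp (((x.2 : ℝ) + 1) * L / 4) := by
    have h5 : L / 4 + 1 ≤ Real.exp (L / 4) := Real.add_one_le_exp _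
    have h6 : Real.exp (L / 4) ≤ Real.exp (((x.2 : ℝ) + 1) * L / 4) := by
      refine Real.exp_le_exp.2 ?_
      nlinarith
    linarith
  have h7 : Real.exp (-|u - ((x.2 : ℝ) + 1) * L|) ≤ Real.exp (u - ((x.2 : ℝ) + 1) * L) := by
    refine Real.exp_le_exp.2 ?_
    have := neg_abs_le (u - ((x.2 : ℝ) + 1) * L)
    linarith
  calc L * Real.exp (-(((x.2 : ℝ) + 1) * L / 2)) * Real.exp (-|u - ((x.2 : ℝ) + 1) * L|)
      ≤ (4 * Real.exp (((x.2 : ℝ) + 1) * L / 4)) * Real.exp (-(((x.2 : ℝ) + 1) * L / 2)) *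
        Real.exp (u - ((x.2 : ℝ) + 1) * L) := by
        refine mul_le_mul ?_ h7 (Real.exp_pos _).le (by positivity)
        exact mul_le_mul_of_nonneg_right h4 (Real.exp_pos _).le
    _ = 4 * Real.exp u * Real.exp (-(5 / 4) * (((x.2 : ℝ) + 1) * L)) := by
        rw [mul_assoc 4, ← Real.exp_add, mul_assoc 4, ← Real.exp_add, mul_assoc 4, ← Real.exp_add]
        congr 2
        ring

theorem tt_le {u : ℝ} (x : HeightOneSpectrum (𝓞 F) × ℕ) :
    tt u x ≤ Real.log (Ideal.absNorm x.1.asIdeal) *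
      Real.exp (-(((x.2 : ℝ) + 1) * Real.log (Ideal.absNorm x.1.asIdeal) / 4)) *
      Real.exp (-(u / 4)) := by
  have hL := log_pos' x.1
  unfold tt
  set L : ℝ := Real.log (Ideal.absNorm x.1.asIdeal) with hLd
  rw [mul_assoc, mul_assoc, ← Real.exp_add, ← Real.exp_add]
  refine mul_le_mul_of_nonneg_left (Real.exp_le_exp.2 ?_) hL.le
  have h1 := le_abs_self (u - ((x.2 : ℝ) + 1) * L)
  have h2 := abs_nonneg (u - ((x.2 : ℝ) + 1) * L)
  linarith

open Classical in
/-- the majorant -/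
noncomputable def maj (S : Set (HeightOneSpectrum (𝓞 F))) (B : ℝ)
    (x : HeightOneSpectrum (𝓞 F) × ℕ) : ℝ :=
  if x.1 ∈ S then |B| * (Real.log (Ideal.absNorm x.1.asIdeal) *
      Real.exp (-(((x.2 : ℝ) + 1) * Real.log (Ideal.absNorm x.1.asIdeal) / 4))) else 0

theorem maj_nonneg (S : Set (HeightOneSpectrum (𝓞 F))) (B : ℝ) (x : HeightOneSpectrum (𝓞 F) × ℕ) :
    0 ≤ maj S B x := by
  unfold maj
  split_ifs
  · exact mul_nonneg (abs_nonneg _) (mul_nonneg (log_pos' x.1).le (Real.exp_pos _).le)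
  · exact le_rfl

theorem maj_summable {S : Set (HeightOneSpectrum (𝓞 F))} (hS : S.Finite) (B : ℝ) :
    Summable (maj S B) := by
  classical
  rw [summable_prod_of_nonneg (maj_nonneg S B)]
  refine ⟨fun v => ?_, ?_⟩
  · by_cases hv : v ∈ S
    · have hL := log_pos' v
      have h1 : (fun n : ℕ => maj S B (v, n)) = fun n : ℕ =>
          |B| * (Real.log (Ideal.absNorm v.asIdeal) *
            Real.exp (-(Real.log (Ideal.absNorm v.asIdeal) / 4))) *
            Real.exp (-(Real.log (Ideal.absNorm v.asIdeal) / 4)) ^ n := by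
        funext n
        unfold maj
        rw [if_pos hv, ← Real.exp_nat_mul, mul_assoc, mul_assoc, ← Real.exp_add]
        congr 3
        push_cast
        ring
      rw [h1]
      refine (summable_geometric_of_lt_one (Real.exp_pos _).le ?_).mul_left _
      rw [← Real.exp_zero]
      exact Real.exp_lt_exp.2 (by linarith)
    · have h1 : (fun n : ℕ => maj S B (v, n)) = fun _ => 0 := by
        funext n
        unfold maj
        rw [if_neg hv]
      rw [h1]
      exact summable_zero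
  · refine summable_of_ne_finset_zero (s := hS.toFinset) fun v hv => ?_
    have h1 : (fun n : ℕ => maj S B (v, n)) = fun _ => 0 := by
      funext n
      unfold maj
      rw [if_neg (fun h => hv (hS.mem_toFinset.2 h))]
    rw [h1]
    exact tsum_zero

open Classical in
theorem ks_summable (P : Set (HeightOneSpectrum (𝓞 F))) {c : HeightOneSpectrum (𝓞 F) → ℕ → ℂ}
    {B : ℝ} (hc : ∀ v n, ‖c v n‖ ≤ B) (u : ℝ) :
    Summable fun x : HeightOneSpectrum (𝓞 F) × ℕ =>
      if x.1 ∈ P then c x.1 x.2 * ((tt u x : ℝ) : ℂ) else 0 := by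
  refine Summable.of_norm_bounded ((tt_summable (F := F) u).mul_left |B|) fun x => ?_
  split_ifs
  · rw [norm_mul, Complex.norm_real, Real.norm_of_nonneg (tt_nonneg u x)]
    exact mul_le_mul_of_nonneg_right ((hc _ _).trans (le_abs_self _)) (tt_nonneg u x)
  · rw [norm_zero]
    exact mul_nonneg (abs_nonneg _) (tt_nonneg u x)

end

theorem red : Pool.Agent.Q253.NF.S_RED := by
  classical
  intro F _ _ P Q c c' B h1 h2 hc hc' heq
  have hS : ((P \ Q) ∪ (Q \ P)).Finite := h1.union h2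
  have hm := maj_summable hS B
  refine ⟨∑' x, maj ((P \ Q) ∪ (Q \ P)) B x, fun u hu => ?_⟩
  have e1 : ks P c u = ∑' x : HeightOneSpectrum (𝓞 F) × ℕ,
      if x.1 ∈ P then c x.1 x.2 * ((tt u x : ℝ) : ℂ) else 0 := by
    unfold ks
    refine tsum_congr fun x => ?_
    by_cases h : x.1 ∈ P
    · rw [if_pos h, if_pos h]
      rfl
    · rw [if_neg h, if_neg h]
  have e2 : ks Q c' u = ∑' x : HeightOneSpectrum (𝓞 F) × ℕ,
      if x.1 ∈ Q then c' x.1 x.2 * ((tt u x : ℝ) : ℂ) else 0 := by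
    unfold ks
    refine tsum_congr fun x => ?_
    by_cases h : x.1 ∈ Q
    · rw [if_pos h, if_pos h]
      rfl
    · rw [if_neg h, if_neg h]
  rw [e1, e2, ← (ks_summable P hc u).tsum_sub (ks_summable Q hc' u), ← tsum_mul_right]
  refine tsum_of_norm_bounded (hm.mul_right _).hasSum fun x => ?_
  have ht := tt_le (u := u) x
  have ht0 := tt_nonneg u x
  have key : ∀ z : ℂ, ‖z‖ ≤ B → x.1 ∈ (P \ Q) ∪ (Q \ P) →
      ‖z * ((tt u x : ℝ) : ℂ)‖ ≤ maj ((P \ Q) ∪ (Q \ P)) B x * Real.exp (-(u / 4)) := by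
    intro z hz hx
    unfold maj
    rw [if_pos hx, norm_mul, Complex.norm_real, Real.norm_of_nonneg ht0, mul_assoc |B|]
    exact mul_le_mul (hz.trans (le_abs_self _)) ht ht0 (abs_nonneg _)
  by_cases hP : x.1 ∈ P
  · by_cases hQ : x.1 ∈ Q
    · rw [if_pos hP, if_pos hQ, heq _ ⟨hP, hQ⟩, sub_self, norm_zero]
      exact mul_nonneg (maj_nonneg _ _ _) (Real.exp_pos _).le
    · rw [if_pos hP, if_neg hQ, sub_zero]
      exact key _ (hc _ _) (Or.inl ⟨hP, hQ⟩)
  · by_cases hQ : x.1 ∈ Q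
    · rw [if_neg hP, if_pos hQ, zero_sub, norm_neg]
      exact key _ (hc' _ _) (Or.inr ⟨hQ, hP⟩)
    · rw [if_neg hP, if_neg hQ, sub_self, norm_zero]
      exact mul_nonneg (maj_nonneg _ _ _) (Real.exp_pos _).le

end Pool.Agent.Q26.NF
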