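import Pool.Agent.Q253.NF.Stm2

/-!
# Job NF-SUMR: linear relations of characters and the orders of their L-functions
-/

set_option autoImplicit false

namespace Pool.Agent.Q26.NF

open Filter Topology Set Complex NumberField IsDedekindDomain
open Pool.Agent.Q92.AR (Continues artinL artinL_sum_int artinL_ne_zero)

/-- the common denominator -/
theorem exists_den {ι : Type} [Fintype ι] (r : ι → ℚ) :
    ∃ (d : ℕ) (n : ι → ℤ), 0 < d ∧ ∀ i, (n i : ℚ) = d * r i := by
  classical
  refine ⟨∏ j, (r j).den, fun i => (r i).num * ((∏ j ∈ Finset.univ.erase i, (r j).den : ℕ) : ℤ),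
    Finset.prod_pos fun j _ => (r j).den_pos, fun i => ?_⟩
  have h1 : ∏ j, (r j).den = (r i).den * ∏ j ∈ Finset.univ.erase i, (r j).den :=
    (Finset.mul_prod_erase Finset.univ (fun j => (r j).den) (Finset.mem_univ i)).symm
  rw [h1]
  push_cast
  have h2 : (r i).den * r i = (r i).num := by
    rw [mul_comm]
    exact Rat.mul_den_eq_num (r i)
  rw [← h2]
  ring

theorem order_prod {ι : Type} (T : Finset ι) (f : ι → ℂ → ℂ) (n o : ι → ℤ) (s : ℂ)
    (hf : ∀ i, MeromorphicAt (f i) s) (ho : ∀ i, meromorphicOrderAt (f i) s = (o i : WithTop ℤ)) :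
    meromorphicOrderAt (fun z => ∏ i ∈ T, f i z ^ n i) s =
      ((∑ i ∈ T, n i * o i : ℤ) : WithTop ℤ) := by
  classical
  induction T using Finset.induction_on with
  | empty =>
    simp only [Finset.prod_empty, Finset.sum_empty]
    have h : AnalyticAt ℂ (fun _ : ℂ => (1 : ℂ)) s := analyticAt_const
    rw [h.meromorphicOrderAt_eq, h.analyticOrderAt_eq_zero.2 one_ne_zero]
    rfl
  | insert a T ha ih =>
    simp only [Finset.prod_insert ha, Finset.sum_insert ha]
    have h1 : (fun z => f a z ^ n a * ∏ i ∈ T, f i z ^ n i) =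
        (f a ^ n a) * (fun z => ∏ i ∈ T, f i z ^ n i) := rfl
    have hm : MeromorphicAt (fun z => ∏ i ∈ T, f i z ^ n i) s :=
      MeromorphicAt.fun_prod fun i _ => (hf i).fun_zpow (n i)
    rw [h1, meromorphicOrderAt_mul ((hf a).zpow _) hm, meromorphicOrderAt_zpow (hf a), ih, ho a]
    push_cast
    rfl

theorem sumr : Pool.Agent.Q253.NF.S_SUMR := by
  intro K M _ _ _ _ _ _ ι _ θ r f o s hrel hf ho
  obtain ⟨d, n, hd, hn⟩ := exists_den r
  have hd' : (d : ℚ) ≠ 0 := by exact_mod_cast hd.ne'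
  have hz : ∀ g, ∑ i, (n i : ℂ) * θ i g = 0 := by
    intro g
    have h1 : ∀ i, (n i : ℂ) = (d : ℂ) * (r i : ℂ) := fun i => by
      have := congrArg (fun q : ℚ => (q : ℂ)) (hn i)
      simpa using this
    calc ∑ i, (n i : ℂ) * θ i g = (d : ℂ) * ∑ i, (r i : ℂ) * θ i g := by
          rw [Finset.mul_sum]
          exact Finset.sum_congr rfl fun i _ => by rw [h1 i, mul_assoc]
      _ = 0 := by rw [hrel g, mul_zero]
  have hc1 : Continues (fun z => ∏ i, f i z ^ n i) (fun _ => 1) := by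
    refine ⟨fun z _ => MeromorphicAt.fun_prod fun i _ => ((hf i).1 z (mem_univ z)).fun_zpow (n i),
      fun z hzre => ?_⟩
    have h2 := artinL_sum_int (M := M) Finset.univ n θ hzre
    have h3 : (fun g => ∑ i, (n i : ℂ) * θ i g) = fun _ => 0 := funext hz
    rw [h3] at h2
    have h4 : artinL M (fun _ : M ≃ₐ[K] M => (0 : ℂ)) z = 1 := by
      unfold artinL Pool.Agent.Q92.AR.artTerm
      simp
    rw [h4] at h2
    change ∏ i, f i z ^ n i = 1
    rw [h2]
    exact Finset.prod_congr rfl fun i _ => by rw [(hf i).2 z hzre]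
  have hc2 : Continues (fun _ : ℂ => (1 : ℂ)) (fun _ => 1) :=
    ⟨fun z _ => MeromorphicAt.const 1 z, fun _ _ => rfl⟩
  have h5 := hc1.order_eq hc2 (fun _ _ => rfl) s
  have h6 := order_prod Finset.univ f n o s (fun i => (hf i).1 s (mem_univ s)) ho
  have h7 : meromorphicOrderAt (fun _ : ℂ => (1 : ℂ)) s = ((0 : ℤ) : WithTop ℤ) := by
    have h : AnalyticAt ℂ (fun _ : ℂ => (1 : ℂ)) s := analyticAt_const
    rw [h.meromorphicOrderAt_eq, h.analyticOrderAt_eq_zero.2 one_ne_zero]
    rfl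
  have h8 : (∑ i, n i * o i : ℤ) = 0 := by
    have h9 := (h6.symm.trans h5).trans h7
    exact_mod_cast h9
  have h10 : (d : ℚ) * ∑ i, r i * (o i : ℚ) = 0 := by
    rw [Finset.mul_sum]
    have h11 : ((∑ i, n i * o i : ℤ) : ℚ) = 0 := by exact_mod_cast h8
    push_cast at h11
    rw [← h11]
    exact Finset.sum_congr rfl fun i _ => by rw [hn i, mul_assoc]
  exact (mul_eq_zero.1 h10).resolve_left hd'

end Pool.Agent.Q26.NF
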